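import Mathlib

/-!
The algorithm: counting connected sets of `n` cells in the `n × n` box, and the rational upper
approximations of Klarner's constant computed from these numbers.  All functions are primitive
recursive.
-/

set_option autoImplicit false

namespace Pool.Agent.K4H36.Kl

/-- Edge-adjacency of cells with natural coordinates. -/
def adjN (a b : ℕ × ℕ) : Prop :=
  (a.1 = b.1 ∧ (a.2 + 1 = b.2 ∨ b.2 + 1 = a.2)) ∨ (a.2 = b.2 ∧ (a.1 + 1 = b.1 ∨ b.1 + 1 = a.1))

instance : DecidableRel adjN := fun a b => by unfold adjN; infer_instance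

/-- All sublists of a list. -/
def subs (L : List (ℕ × ℕ)) : List (List (ℕ × ℕ)) :=
  L.foldr (fun a acc => acc ++ acc.map (List.cons a)) [[]]

/-- Connectivity test: each nonempty proper part of the list has an edge to the rest. -/
def connL (l : List (ℕ × ℕ)) : Prop :=
  ∀ s ∈ subs l, s = [] ∨ l.length ≤ s.length ∨ ∃ a ∈ s, ∃ b ∈ l, b ∉ s ∧ adjN a b

instance : DecidablePred connL := fun l => by unfold connL; infer_instance

/-- The list of the cells of the `n × n` box. -/
def boxL (n : ℕ) : List (ℕ × ℕ) :=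
  (List.range n).flatMap (fun i => (List.range n).map (fun k => (i, k)))

/-- The number of connected sets of `n` cells in the `n × n` box. -/
def boxCount (n : ℕ) : ℕ := ((subs (boxL n)).filter (fun l => l.length = n ∧ connL l)).length

/-- The finite test with parameters `j, p, q`. -/
def cert (j p q : ℕ) : Prop :=
  ∀ m < 5 * j + 1, m < j ∨ 50 ^ 5 * m ^ 5 * boxCount m * q ^ m ≤ p ^ m

instance (j p q : ℕ) : Decidable (cert j p q) := by unfold cert; infer_instance

/-- One of the first tests is passed by the fraction `p / 2 ^ n`. -/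
def good (n p : ℕ) : Prop := ∃ j < n + 1, cert (j + 1) p (2 ^ n)

instance (n p : ℕ) : Decidable (good n p) := by unfold good; infer_instance

/-- The numerators of the upper approximations; the denominators are `2 ^ n`. -/
def numer (n : ℕ) : ℕ :=
  Nat.findGreatest (fun p => ¬ good n p) (2 ^ n * (50 ^ 5 * 5 ^ 5 * 2 ^ 25)) + 2

open Primrec

theorem primrec_pow : Primrec₂ ((· ^ ·) : ℕ → ℕ → ℕ) :=
  Primrec₂.unpaired'.1 Nat.Primrec.pow

theorem relOf {α β : Type} [Primcodable α] [Primcodable β] {R : α → β → Prop}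
    (h : PrimrecPred (fun z : α × β => R z.1 z.2)) : PrimrecRel R := h

theorem primrec_adjN : PrimrecRel adjN := by
  unfold adjN
  apply relOf
  have e : ∀ f g : (ℕ × ℕ) × (ℕ × ℕ) → ℕ, Primrec f → Primrec g →
      PrimrecPred (fun z => f z + 1 = g z) := fun f g hf hg =>
    Primrec.eq.comp (Primrec.succ.comp hf) hg
  have e0 : ∀ f g : (ℕ × ℕ) × (ℕ × ℕ) → ℕ, Primrec f → Primrec g →
      PrimrecPred (fun z => f z = g z) := fun f g hf hg => Primrec.eq.comp hf hg
  have p1 : Primrec (fun z : (ℕ × ℕ) × (ℕ × ℕ) => z.1.1) := fst.comp fst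
  have p2 : Primrec (fun z : (ℕ × ℕ) × (ℕ × ℕ) => z.1.2) := snd.comp fst
  have p3 : Primrec (fun z : (ℕ × ℕ) × (ℕ × ℕ) => z.2.1) := fst.comp snd
  have p4 : Primrec (fun z : (ℕ × ℕ) × (ℕ × ℕ) => z.2.2) := snd.comp snd
  exact ((e0 _ _ p1 p3).and ((e _ _ p2 p4).or (e _ _ p4 p2))).or
    ((e0 _ _ p2 p4).and ((e _ _ p1 p3).or (e _ _ p3 p1)))

theorem primrec_subs : Primrec subs := by
  unfold subs
  have h : Primrec₂ (fun (_ : List (ℕ × ℕ)) (z : (ℕ × ℕ) × List (List (ℕ × ℕ))) =>
      z.2 ++ z.2.map (List.cons z.1)) := by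
    have h0 : Primrec (fun z : List (ℕ × ℕ) × ((ℕ × ℕ) × List (List (ℕ × ℕ))) =>
        z.2.2 ++ z.2.2.map (List.cons z.2.1)) := by
      refine Primrec.list_append.comp (snd.comp snd) ?_
      refine Primrec.list_map (snd.comp snd) ?_
      exact Primrec.list_cons.comp (fst.comp (snd.comp fst)) snd
    exact h0
  exact Primrec.list_foldr (f := fun L : List (ℕ × ℕ) => L)
    (g := fun _ : List (ℕ × ℕ) => ([[]] : List (List (ℕ × ℕ)))) Primrec.id (Primrec.const _) h

theorem primrec_notMem : PrimrecRel (fun (b : ℕ × ℕ) (s : List (ℕ × ℕ)) => b ∉ s) := by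
  have h1 : PrimrecRel (fun (s : List (ℕ × ℕ)) (b : ℕ × ℕ) => ∃ a ∈ s, a = b) :=
    PrimrecRel.exists_mem_list (R := fun a b : ℕ × ℕ => a = b) Primrec.eq
  have h2 : PrimrecRel (fun (b : ℕ × ℕ) (s : List (ℕ × ℕ)) => ∃ a ∈ s, a = b) := h1.swap
  refine h2.not.of_eq ?_
  intro b s
  simp

theorem primrec_link : PrimrecRel (fun (s l : List (ℕ × ℕ)) =>
    ∃ a ∈ s, ∃ b ∈ l, b ∉ s ∧ adjN a b) := by
  -- innermost relation
  have h1 : PrimrecRel (fun (b : ℕ × ℕ) (z : (ℕ × ℕ) × List (ℕ × ℕ)) => b ∉ z.2 ∧ adjN z.1 b) := by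
    apply relOf
    refine PrimrecPred.and ?_ ?_
    · exact primrec_notMem.comp fst (snd.comp snd)
    · exact primrec_adjN.comp (fst.comp snd) fst
  have h2 := PrimrecRel.exists_mem_list h1
  -- h2 : relation on l and (a, s)
  have h3 : PrimrecRel (fun (a : ℕ × ℕ) (z : List (ℕ × ℕ) × List (ℕ × ℕ)) =>
      ∃ b ∈ z.2, b ∉ z.1 ∧ adjN a b) := by
    apply relOf
    exact h2.comp (snd.comp snd) (Primrec.pair fst (fst.comp snd))
  have h4 := PrimrecRel.exists_mem_list h3
  apply relOf
  exact h4.comp fst (Primrec.pair fst snd)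

theorem primrec_connL : PrimrecPred connL := by
  unfold connL
  have h1 : PrimrecRel (fun (s l : List (ℕ × ℕ)) =>
      s = [] ∨ l.length ≤ s.length ∨ ∃ a ∈ s, ∃ b ∈ l, b ∉ s ∧ adjN a b) := by
    apply relOf
    refine PrimrecPred.or ?_ (PrimrecPred.or ?_ ?_)
    · exact Primrec.eq.comp fst (Primrec.const [])
    · exact Primrec.nat_le.comp (list_length.comp snd) (list_length.comp fst)
    · exact primrec_link.comp fst snd
  exact (PrimrecRel.forall_mem_list h1).comp primrec_subs Primrec.id

theorem primrec_boxL : Primrec boxL := by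
  unfold boxL
  refine Primrec.list_flatMap list_range ?_
  refine Primrec.list_map (list_range.comp fst) ?_
  exact Primrec.pair (snd.comp fst) snd

theorem primrec_boxCount : Primrec boxCount := by
  unfold boxCount
  refine list_length.comp ?_
  have h1 : PrimrecRel (fun (l : List (ℕ × ℕ)) (n : ℕ) => l.length = n ∧ connL l) := by
    apply relOf
    refine PrimrecPred.and ?_ ?_
    · exact Primrec.eq.comp (list_length.comp fst) snd
    · exact primrec_connL.comp fst
  exact (PrimrecRel.listFilter h1).comp (primrec_subs.comp primrec_boxL) Primrec.id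

theorem primrec_cert : PrimrecPred (fun z : ℕ × ℕ × ℕ => cert z.1 z.2.1 z.2.2) := by
  unfold cert
  have h1 : PrimrecRel (fun (m : ℕ) (z : ℕ × ℕ × ℕ) =>
      m < z.1 ∨ 50 ^ 5 * m ^ 5 * boxCount m * z.2.2 ^ m ≤ z.2.1 ^ m) := by
    apply relOf
    refine PrimrecPred.or ?_ ?_
    · exact Primrec.nat_lt.comp fst (fst.comp snd)
    · refine Primrec.nat_le.comp ?_ ?_
      · refine Primrec.nat_mul.comp (Primrec.nat_mul.comp (Primrec.nat_mul.comp
          (Primrec.const (50 ^ 5)) ?_) ?_) ?_
        · exact primrec_pow.comp fst (Primrec.const 5)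
        · exact primrec_boxCount.comp fst
        · exact primrec_pow.comp (snd.comp (snd.comp snd)) fst
      · exact primrec_pow.comp (fst.comp (snd.comp snd)) fst
  have h2 := (PrimrecRel.forall_mem_list h1).comp
    (list_range.comp (Primrec.succ.comp (Primrec.nat_mul.comp (Primrec.const 5)
      (fst : Primrec (fun z : ℕ × ℕ × ℕ => z.1))))) Primrec.id
  refine h2.of_eq ?_
  intro z
  simp

theorem primrec_good : PrimrecRel good := by
  have h1 : PrimrecRel (fun (j : ℕ) (z : ℕ × ℕ) => cert (j + 1) z.2 (2 ^ z.1)) := by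
    apply relOf
    exact primrec_cert.comp (Primrec.pair (Primrec.succ.comp fst) (Primrec.pair (snd.comp snd)
      (primrec_pow.comp (Primrec.const 2) (fst.comp snd))))
  have h2 : PrimrecPred (fun z : ℕ × ℕ => ∃ j ∈ List.range (z.1 + 1), cert (j + 1) z.2 (2 ^ z.1)) :=
    (PrimrecRel.exists_mem_list h1).comp (list_range.comp (Primrec.succ.comp fst)) Primrec.id
  refine relOf (h2.of_eq ?_)
  intro z
  unfold good
  simp

theorem primrec_numer : Primrec numer := by
  unfold numer
  refine Primrec.nat_add.comp ?_ (Primrec.const 2)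
  refine Primrec.nat_findGreatest ?_ ?_
  · exact Primrec.nat_mul.comp (primrec_pow.comp (Primrec.const 2) Primrec.id) (Primrec.const _)
  · exact primrec_good.not

end Pool.Agent.K4H36.Kl
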