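import Mathlib

/-!
Polyominoes on the square lattice: definitions and the cut criterion for connectivity.
-/

set_option autoImplicit false

namespace Pool.Agent.K4H36.Kl

/-- A cell of the square lattice, labelled by its coordinates. -/
abbrev Cell := ℤ × ℤ

/-- The adjacency graph of the cells: two cells are adjacent when they share an edge. -/
def grid : SimpleGraph Cell where
  Adj a b := |a.1 - b.1| + |a.2 - b.2| = 1
  symm := ⟨fun a b h => by rw [abs_sub_comm b.1, abs_sub_comm b.2]; exact h⟩
  loopless := ⟨fun a h => by simp at h⟩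

/-- An `n`-omino: a set of `n` cells which is connected under edge-adjacency. -/
def IsOmino (n : ℕ) (s : Finset Cell) : Prop :=
  s.card = n ∧ (grid.induce (s : Set Cell)).Connected

/-- The translate of a finite set of cells by a vector. -/
def shift (v : Cell) (s : Finset Cell) : Finset Cell := s.map (addRightEmbedding v)

theorem mem_shift {v : Cell} {s : Finset Cell} {c : Cell} : c ∈ shift v s ↔ c - v ∈ s := by
  unfold shift
  simp only [Finset.mem_map, addRightEmbedding_apply]
  constructor
  · rintro ⟨a, ha, rfl⟩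
    simpa using ha
  · intro h
    exact ⟨_, h, by abel⟩

theorem card_shift (v : Cell) (s : Finset Cell) : (shift v s).card = s.card :=
  Finset.card_map _

theorem shift_shift (v w : Cell) (s : Finset Cell) : shift w (shift v s) = shift (v + w) s := by
  ext c
  simp only [mem_shift]
  rw [sub_sub, add_comm w v]

theorem shift_zero (s : Finset Cell) : shift 0 s = s := by
  ext c; simp [mem_shift]

/-- Cut criterion for connectivity. -/
def Conn (s : Finset Cell) : Prop :=
  s.Nonempty ∧ ∀ t ⊆ s, t.Nonempty → t ≠ s → ∃ a ∈ t, ∃ b ∈ s, b ∉ t ∧ grid.Adj a b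

theorem conn_iff (s : Finset Cell) : (grid.induce (s : Set Cell)).Connected ↔ Conn s := by
  classical
  constructor
  · intro h
    have hne : Nonempty (s : Set Cell) := h.nonempty
    obtain ⟨⟨x, hx⟩⟩ := hne
    refine ⟨⟨x, hx⟩, ?_⟩
    intro t hts htne hne
    obtain ⟨a, ha⟩ := htne
    have : ∃ b ∈ s, b ∉ t := by
      by_contra hcon
      push Not at hcon
      exact hne (Finset.Subset.antisymm hts hcon)
    obtain ⟨b, hb, hbt⟩ := this
    obtain ⟨p⟩ := h.preconnected ⟨a, hts ha⟩ ⟨b, hb⟩
    obtain ⟨d, -, hd1, hd2⟩ := p.exists_boundary_dart {z | (z : Cell) ∈ t} ha hbt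
    refine ⟨d.fst, hd1, d.snd, d.snd.2, hd2, ?_⟩
    exact d.adj
  · rintro ⟨⟨x, hx⟩, h⟩
    rw [SimpleGraph.connected_iff_exists_forall_reachable]
    refine ⟨⟨x, hx⟩, ?_⟩
    set R : Set Cell := {z | ∃ hz : z ∈ s, (grid.induce (s : Set Cell)).Reachable ⟨x, hx⟩ ⟨z, hz⟩}
    set t : Finset Cell := s.filter (fun z => z ∈ R) with ht
    have hts : t ⊆ s := Finset.filter_subset _ _
    have hxt : x ∈ t := by
      rw [ht, Finset.mem_filter]
      exact ⟨hx, hx, SimpleGraph.Reachable.refl _⟩
    have hteq : t = s := by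
      by_contra hne
      obtain ⟨a, ha, b, hb, hbt, hab⟩ := h t hts ⟨x, hxt⟩ hne
      apply hbt
      rw [ht, Finset.mem_filter]
      refine ⟨hb, hb, ?_⟩
      rw [ht, Finset.mem_filter] at ha
      obtain ⟨ha, ha', hr⟩ := ha
      refine hr.trans ?_
      apply SimpleGraph.Adj.reachable
      exact hab
    rintro ⟨z, hz⟩
    have : z ∈ t := by rw [hteq]; exact hz
    rw [ht, Finset.mem_filter] at this
    obtain ⟨-, hz', hr⟩ := this
    exact hr

theorem isOmino_iff (n : ℕ) (s : Finset Cell) : IsOmino n s ↔ s.card = n ∧ Conn s := by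
  unfold IsOmino
  rw [conn_iff]

theorem adj_sub (v a b : Cell) : grid.Adj (a - v) (b - v) ↔ grid.Adj a b := by
  unfold grid
  simp

theorem Conn.shift {s : Finset Cell} (h : Conn s) (v : Cell) : Conn (shift v s) := by
  obtain ⟨⟨x, hx⟩, h⟩ := h
  refine ⟨⟨x + v, by rw [mem_shift]; simpa using hx⟩, ?_⟩
  intro t hts htne hne
  have h1 : Kl.shift (-v) t ⊆ s := by
    intro c hc
    rw [mem_shift] at hc
    have := hts hc
    rw [mem_shift] at this
    simpa using this
  have h2 : (Kl.shift (-v) t).Nonempty := by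
    obtain ⟨a, ha⟩ := htne
    exact ⟨a - v, by rw [mem_shift]; simpa using ha⟩
  have h3 : Kl.shift (-v) t ≠ s := by
    intro heq
    apply hne
    rw [← heq, shift_shift]
    simp [shift_zero]
  obtain ⟨a, ha, b, hb, hbt, hab⟩ := h _ h1 h2 h3
  rw [mem_shift] at ha hbt
  refine ⟨a + v, by simpa using ha, b + v, by rw [mem_shift]; simpa using hb, by simpa using hbt, ?_⟩
  rw [← adj_sub v]
  simpa using hab

theorem conn_shift_iff {s : Finset Cell} (v : Cell) : Conn (shift v s) ↔ Conn s := by
  constructor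
  · intro h
    have := h.shift (-v)
    rw [shift_shift] at this
    simpa [shift_zero] using this
  · intro h; exact h.shift v

/-- Two connected sets joined by an edge. -/
theorem Conn.union_of_adj {s t : Finset Cell} (hs : Conn s) (ht : Conn t) {a b : Cell}
    (ha : a ∈ s) (hb : b ∈ t) (hab : grid.Adj a b) : Conn (s ∪ t) := by
  classical
  refine ⟨⟨a, Finset.mem_union_left _ ha⟩, ?_⟩
  intro u hu hune hne
  -- u meets s properly, or u meets t properly, or u is s or t
  by_cases h1 : (u ∩ s).Nonempty ∧ u ∩ s ≠ s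
  · obtain ⟨x, hx, y, hy, hyn, hxy⟩ := hs.2 (u ∩ s) Finset.inter_subset_right h1.1 h1.2
    rw [Finset.mem_inter] at hx hyn
    exact ⟨x, hx.1, y, Finset.mem_union_left _ hy, fun h => hyn ⟨h, hy⟩, hxy⟩
  · by_cases h2 : (u ∩ t).Nonempty ∧ u ∩ t ≠ t
    · obtain ⟨x, hx, y, hy, hyn, hxy⟩ := ht.2 (u ∩ t) Finset.inter_subset_right h2.1 h2.2
      rw [Finset.mem_inter] at hx hyn
      exact ⟨x, hx.1, y, Finset.mem_union_right _ hy, fun h => hyn ⟨h, hy⟩, hxy⟩
    · -- now u ∩ s ∈ {∅, s}, u ∩ t ∈ {∅, t}
      have h1' : ¬ (u ∩ s).Nonempty ∨ u ∩ s = s := by tauto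
      have h2' : ¬ (u ∩ t).Nonempty ∨ u ∩ t = t := by tauto
      rcases h1' with h1' | h1'
      · rcases h2' with h2' | h2'
        · exfalso
          obtain ⟨x, hx⟩ := hune
          rcases Finset.mem_union.1 (hu hx) with h | h
          · exact h1' ⟨x, Finset.mem_inter.2 ⟨hx, h⟩⟩
          · exact h2' ⟨x, Finset.mem_inter.2 ⟨hx, h⟩⟩
        · refine ⟨b, ?_, a, Finset.mem_union_left _ ha, ?_, hab.symm⟩
          · rw [← h2'] at hb; exact (Finset.mem_inter.1 hb).1
          · intro h
            exact h1' ⟨a, Finset.mem_inter.2 ⟨h, ha⟩⟩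
      · rcases h2' with h2' | h2'
        · refine ⟨a, ?_, b, Finset.mem_union_right _ hb, ?_, hab⟩
          · rw [← h1'] at ha; exact (Finset.mem_inter.1 ha).1
          · intro h
            exact h2' ⟨b, Finset.mem_inter.2 ⟨h, hb⟩⟩
        · exfalso
          apply hne
          apply Finset.Subset.antisymm hu
          intro x hx
          rcases Finset.mem_union.1 hx with h | h
          · rw [← h1'] at h; exact (Finset.mem_inter.1 h).1
          · rw [← h2'] at h; exact (Finset.mem_inter.1 h).1

theorem conn_singleton (c : Cell) : Conn {c} := by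
  refine ⟨⟨c, Finset.mem_singleton_self c⟩, ?_⟩
  intro t ht htne hne
  exfalso
  apply hne
  apply Finset.Subset.antisymm ht
  obtain ⟨x, hx⟩ := htne
  have := Finset.mem_singleton.1 (ht hx)
  intro y hy
  rw [Finset.mem_singleton.1 hy, ← this]
  exact hx

end Pool.Agent.K4H36.Kl
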