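import Mathlib
import Pool.Agent.K4H36.Kl.Basic

/-!
Fixed polyominoes (translation classes) and their normalised representatives.
-/

set_option autoImplicit false

namespace Pool.Agent.K4H36.Kl

/-- Two `n`-ominoes are equivalent when one is a translate of the other. -/
def transSetoid (n : ℕ) : Setoid {s : Finset Cell // IsOmino n s} where
  r s t := ∃ v : Cell, (t : Finset Cell) = shift v s
  iseqv :=
    { refl := fun s => ⟨0, (shift_zero _).symm⟩
      symm := by
        rintro s t ⟨v, h⟩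
        refine ⟨-v, ?_⟩
        rw [h, shift_shift]
        simp [shift_zero]
      trans := by
        rintro s t u ⟨v, h⟩ ⟨w, h'⟩
        exact ⟨v + w, by rw [h', h, shift_shift]⟩ }

/-- The number `t(n)` of fixed `n`-ominoes: classes of `n`-ominoes modulo translations. -/
noncomputable def fixedCount (n : ℕ) : ℕ := Nat.card (Quotient (transSetoid n))

/-- The smallest coordinates of the cells are `0`. -/
def Normal (s : Finset Cell) : Prop :=
  (∀ c ∈ s, 0 ≤ c.1 ∧ 0 ≤ c.2) ∧ (∃ c ∈ s, c.1 = 0) ∧ (∃ c ∈ s, c.2 = 0)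

theorem exists_normal {s : Finset Cell} (hs : s.Nonempty) :
    ∃ (u : Cell) (s0 : Finset Cell), Normal s0 ∧ s = shift u s0 ∧
      (∃ c ∈ s, c.1 = u.1) ∧ (∃ c ∈ s, c.2 = u.2) := by
  obtain ⟨a, ha, hamin⟩ := Finset.exists_min_image s (fun c => c.1) hs
  obtain ⟨b, hb, hbmin⟩ := Finset.exists_min_image s (fun c => c.2) hs
  refine ⟨(a.1, b.2), shift (-(a.1, b.2)) s, ?_, ?_, ⟨a, ha, rfl⟩, ⟨b, hb, rfl⟩⟩
  · refine ⟨?_, ?_, ?_⟩
    · intro c hc
      rw [mem_shift] at hc
      have h1 := hamin _ hc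
      have h2 := hbmin _ hc
      simp at h1 h2
      exact ⟨h1, h2⟩
    · refine ⟨a - (a.1, b.2), ?_, by simp⟩
      rw [mem_shift, sub_neg_eq_add, sub_add_cancel]
      exact ha
    · refine ⟨b - (a.1, b.2), ?_, by simp⟩
      rw [mem_shift, sub_neg_eq_add, sub_add_cancel]
      exact hb
  · rw [shift_shift, neg_add_cancel, shift_zero]

theorem normal_unique {s : Finset Cell} {v : Cell} (h1 : Normal s) (h2 : Normal (shift v s)) :
    v = 0 := by
  obtain ⟨p1, ⟨a, ha, ha0⟩, ⟨b, hb, hb0⟩⟩ := h1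
  obtain ⟨p2, ⟨c, hc, hc0⟩, ⟨d, hd, hd0⟩⟩ := h2
  have e1 := p2 (a + v) (by rw [mem_shift]; simpa using ha)
  have e2 := p2 (b + v) (by rw [mem_shift]; simpa using hb)
  rw [mem_shift] at hc hd
  have e3 := p1 _ hc
  have e4 := p1 _ hd
  simp at e1 e2 e3 e4
  ext <;> simp <;> omega

/-- A connected normalised set has width less than its number of cells. -/
theorem width_fst {s : Finset Cell} (hc : Conn s) (h0 : ∃ c ∈ s, c.1 = 0) {c : Cell} (hcs : c ∈ s)
    : c.1 < s.card := by
  classical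
  by_cases hneg : c.1 < 0
  · have : (0 : ℤ) ≤ s.card := by positivity
    omega
  push Not at hneg
  have h1 : Finset.Icc 0 c.1 ⊆ s.image Prod.fst := by
    intro i hi
    rw [Finset.mem_Icc] at hi
    by_contra hcon
    have hni : ∀ z ∈ s, z.1 ≠ i := by
      intro z hz hzi
      exact hcon (Finset.mem_image.2 ⟨z, hz, hzi⟩)
    obtain ⟨z0, hz0, hz00⟩ := h0
    have hi0 : 0 < i := by
      rcases lt_or_eq_of_le hi.1 with h | h
      · exact h
      · exact absurd (by rw [hz00, h]) (hni z0 hz0)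
    obtain ⟨a, ha, b, hb, hbn, hab⟩ := hc.2 (s.filter (fun z => z.1 < i)) (Finset.filter_subset _ _)
      ⟨z0, Finset.mem_filter.2 ⟨hz0, by omega⟩⟩
      (by
        intro h
        rw [← h] at hcs
        have := (Finset.mem_filter.1 hcs).2
        omega)
    rw [Finset.mem_filter] at ha hbn
    have hb1 : i ≤ b.1 := by
      by_contra h
      exact hbn ⟨hb, by omega⟩
    have hb2 := hni b hb
    have hab' : |a.1 - b.1| + |a.2 - b.2| = 1 := hab
    have h3 : |a.1 - b.1| ≤ 1 := by
      have := abs_nonneg (a.2 - b.2)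
      omega
    rw [abs_le] at h3
    omega
  have h2 := Finset.card_le_card h1
  have h3 : (s.image Prod.fst).card ≤ s.card := Finset.card_image_le
  rw [Int.card_Icc] at h2
  omega

theorem width_snd {s : Finset Cell} (hc : Conn s) (h0 : ∃ c ∈ s, c.2 = 0) {c : Cell} (hcs : c ∈ s)
    : c.2 < s.card := by
  classical
  by_cases hneg : c.2 < 0
  · have : (0 : ℤ) ≤ s.card := by positivity
    omega
  push Not at hneg
  have h1 : Finset.Icc 0 c.2 ⊆ s.image Prod.snd := by
    intro i hi
    rw [Finset.mem_Icc] at hi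
    by_contra hcon
    have hni : ∀ z ∈ s, z.2 ≠ i := by
      intro z hz hzi
      exact hcon (Finset.mem_image.2 ⟨z, hz, hzi⟩)
    obtain ⟨z0, hz0, hz00⟩ := h0
    have hi0 : 0 < i := by
      rcases lt_or_eq_of_le hi.1 with h | h
      · exact h
      · exact absurd (by rw [hz00, h]) (hni z0 hz0)
    obtain ⟨a, ha, b, hb, hbn, hab⟩ := hc.2 (s.filter (fun z => z.2 < i)) (Finset.filter_subset _ _)
      ⟨z0, Finset.mem_filter.2 ⟨hz0, by omega⟩⟩
      (by
        intro h
        rw [← h] at hcs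
        have := (Finset.mem_filter.1 hcs).2
        omega)
    rw [Finset.mem_filter] at ha hbn
    have hb1 : i ≤ b.2 := by
      by_contra h
      exact hbn ⟨hb, by omega⟩
    have hb2 := hni b hb
    have hab' : |a.1 - b.1| + |a.2 - b.2| = 1 := hab
    have h3 : |a.2 - b.2| ≤ 1 := by
      have := abs_nonneg (a.1 - b.1)
      omega
    rw [abs_le] at h3
    omega
  have h2 := Finset.card_le_card h1
  have h3 : (s.image Prod.snd).card ≤ s.card := Finset.card_image_le
  rw [Int.card_Icc] at h2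
  omega

/-- The `n × n` box of cells. -/
noncomputable def boxF (n : ℕ) : Finset Cell := Finset.Ico (0 : ℤ) n ×ˢ Finset.Ico (0 : ℤ) n

theorem mem_boxF {n : ℕ} {c : Cell} : c ∈ boxF n ↔ (0 ≤ c.1 ∧ c.1 < n) ∧ (0 ≤ c.2 ∧ c.2 < n) := by
  unfold boxF
  rw [Finset.mem_product, Finset.mem_Ico, Finset.mem_Ico]

theorem card_boxF (n : ℕ) : (boxF n).card = n ^ 2 := by
  unfold boxF
  rw [Finset.card_product, Int.card_Ico]
  simp [sq]

theorem subset_boxF {s : Finset Cell} (hc : Conn s) (hn : Normal s) : s ⊆ boxF s.card := by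
  intro c hcs
  rw [mem_boxF]
  exact ⟨⟨(hn.1 c hcs).1, width_fst hc hn.2.1 hcs⟩, ⟨(hn.1 c hcs).2, width_snd hc hn.2.2 hcs⟩⟩

open Classical in
/-- Normalised `n`-ominoes. -/
noncomputable def NB (n : ℕ) : Finset (Finset Cell) :=
  (boxF n).powerset.filter (fun s => s.card = n ∧ Conn s ∧ Normal s)

theorem mem_NB {n : ℕ} {s : Finset Cell} : s ∈ NB n ↔ s.card = n ∧ Conn s ∧ Normal s := by
  classical
  unfold NB
  rw [Finset.mem_filter, Finset.mem_powerset]
  constructor
  · exact fun h => h.2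
  · intro h
    exact ⟨h.1 ▸ subset_boxF h.2.1 h.2.2, h⟩

theorem fixedCount_eq (n : ℕ) : fixedCount n = (NB n).card := by
  classical
  unfold fixedCount
  rw [← Nat.card_eq_finsetCard]
  symm
  apply Nat.card_congr
  refine Equiv.ofBijective (fun s : NB n => Quotient.mk (transSetoid n)
    ⟨s.1, (isOmino_iff n s.1).2 ⟨(mem_NB.1 s.2).1, (mem_NB.1 s.2).2.1⟩⟩) ⟨?_, ?_⟩
  · rintro ⟨s, hs⟩ ⟨t, ht⟩ h
    have h' := Quotient.exact h
    obtain ⟨v, hv⟩ := h'
    simp only at hv
    have h1 := (mem_NB.1 hs).2.2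
    have h2 := (mem_NB.1 ht).2.2
    rw [hv] at h2
    have := normal_unique h1 h2
    subst this
    rw [shift_zero] at hv
    exact Subtype.ext hv.symm
  · intro q
    induction q using Quotient.inductionOn with
    | h s =>
      obtain ⟨s, hs⟩ := s
      rw [isOmino_iff] at hs
      obtain ⟨u, s0, h0, hs0, -, -⟩ := exists_normal hs.2.1
      refine ⟨⟨s0, ?_⟩, ?_⟩
      · rw [mem_NB]
        rw [hs0, card_shift, conn_shift_iff] at hs
        exact ⟨hs.1, hs.2, h0⟩
      · apply Quotient.sound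
        exact ⟨u, hs0⟩

end Pool.Agent.K4H36.Kl
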