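import Mathlib
import Pool.Agent.K4H36.Kl.Algo
import Pool.Agent.K4H36.Kl.Norm

/-!
Comparison of the computed numbers `boxCount n` with the numbers of fixed `n`-ominoes.
-/

set_option autoImplicit false

namespace Pool.Agent.K4H36.Kl

theorem subs_cons (a : ℕ × ℕ) (L : List (ℕ × ℕ)) :
    subs (a :: L) = subs L ++ (subs L).map (List.cons a) := rfl

theorem subs_eq (L : List (ℕ × ℕ)) : subs L = L.sublists' := by
  induction L with
  | nil => rfl
  | cons a L ih => rw [subs_cons, List.sublists'_cons, ih]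

theorem mem_subs {s L : List (ℕ × ℕ)} : s ∈ subs L ↔ s.Sublist L := by
  rw [subs_eq, List.mem_sublists']

theorem mem_boxL {n : ℕ} {c : ℕ × ℕ} : c ∈ boxL n ↔ c.1 < n ∧ c.2 < n := by
  unfold boxL
  simp only [List.mem_flatMap, List.mem_range, List.mem_map]
  constructor
  · rintro ⟨i, hi, k, hk, rfl⟩
    exact ⟨hi, hk⟩
  · rintro ⟨h1, h2⟩
    exact ⟨c.1, h1, c.2, h2, rfl⟩

theorem nodup_boxL (n : ℕ) : (boxL n).Nodup := by
  unfold boxL
  rw [List.nodup_flatMap]
  refine ⟨?_, ?_⟩
  · intro i _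
    apply List.Nodup.map _ List.nodup_range
    intro a b h
    exact (Prod.mk.inj h).2
  · apply List.Pairwise.imp_of_mem _ List.nodup_range
    intro i j _ _ hij
    simp only [Function.onFun]
    rw [List.disjoint_left]
    intro c hc hc'
    rw [List.mem_map] at hc hc'
    obtain ⟨x, -, rfl⟩ := hc
    obtain ⟨y, -, h⟩ := hc'
    exact hij (Prod.mk.inj h).1.symm

theorem length_boxL (n : ℕ) : (boxL n).length = n ^ 2 := by
  unfold boxL
  simp [sq]

/-- The inclusion of the natural cells. -/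
def emb (c : ℕ × ℕ) : Cell := ((c.1 : ℤ), (c.2 : ℤ))

theorem emb_inj : Function.Injective emb := by
  intro a b h
  unfold emb at h
  have h1 := (Prod.mk.inj h).1
  have h2 := (Prod.mk.inj h).2
  ext
  · exact_mod_cast h1
  · exact_mod_cast h2

theorem adj_emb (a b : ℕ × ℕ) : grid.Adj (emb a) (emb b) ↔ adjN a b := by
  have h : grid.Adj (emb a) (emb b) ↔ |(a.1 : ℤ) - b.1| + |(a.2 : ℤ) - b.2| = 1 := Iff.rfl
  rw [h]
  unfold adjN
  constructor
  · intro h
    rcases abs_cases ((a.1 : ℤ) - b.1) with ⟨h1, h2⟩ | ⟨h1, h2⟩ <;>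
      rcases abs_cases ((a.2 : ℤ) - b.2) with ⟨h3, h4⟩ | ⟨h3, h4⟩ <;> rw [h1, h3] at h <;> omega
  · intro h
    rcases abs_cases ((a.1 : ℤ) - b.1) with ⟨h1, h2⟩ | ⟨h1, h2⟩ <;>
      rcases abs_cases ((a.2 : ℤ) - b.2) with ⟨h3, h4⟩ | ⟨h3, h4⟩ <;> rw [h1, h3] <;> omega

/-- The set of cells of a list. -/
def toF (l : List (ℕ × ℕ)) : Finset Cell := (l.map emb).toFinset

theorem mem_toF {l : List (ℕ × ℕ)} {c : Cell} : c ∈ toF l ↔ ∃ a ∈ l, emb a = c := by
  unfold toF
  rw [List.mem_toFinset, List.mem_map]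

theorem emb_mem_toF {l : List (ℕ × ℕ)} {a : ℕ × ℕ} : emb a ∈ toF l ↔ a ∈ l := by
  rw [mem_toF]
  constructor
  · rintro ⟨b, hb, h⟩
    rwa [← emb_inj h]
  · intro h
    exact ⟨a, h, rfl⟩

theorem card_toF {l : List (ℕ × ℕ)} (h : l.Nodup) : (toF l).card = l.length := by
  unfold toF
  rw [List.toFinset_card_of_nodup (h.map emb_inj), List.length_map]

theorem connL_iff {l : List (ℕ × ℕ)} (hl : l.Nodup) (hne : l ≠ []) : connL l ↔ Conn (toF l) := by
  classical
  unfold connL
  constructor
  · intro h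
    obtain ⟨a0, ha0⟩ := List.exists_mem_of_ne_nil l hne
    refine ⟨⟨emb a0, emb_mem_toF.2 ha0⟩, ?_⟩
    intro t ht htne hne'
    set s := l.filter (fun c => decide (emb c ∈ t)) with hs
    have hsl : s.Sublist l := List.filter_sublist
    have hmem : ∀ c, c ∈ s ↔ c ∈ l ∧ emb c ∈ t := by
      intro c
      rw [hs, List.mem_filter]
      simp
    rcases h s (mem_subs.2 hsl) with h1 | h1 | ⟨a, ha, b, hb, hbs, hab⟩
    · exfalso
      obtain ⟨x, hx⟩ := htne
      obtain ⟨c, hc, rfl⟩ := mem_toF.1 (ht hx)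
      have : c ∈ s := (hmem c).2 ⟨hc, hx⟩
      rw [h1] at this
      simp at this
    · exfalso
      have hsl' : s = l := hsl.eq_of_length_le h1
      apply hne'
      apply Finset.Subset.antisymm ht
      intro x hx
      obtain ⟨c, hc, rfl⟩ := mem_toF.1 hx
      rw [← hsl'] at hc
      exact ((hmem c).1 hc).2
    · refine ⟨emb a, ((hmem a).1 ha).2, emb b, emb_mem_toF.2 hb, ?_, (adj_emb a b).2 hab⟩
      intro h
      exact hbs ((hmem b).2 ⟨hb, h⟩)
  · intro h s hs
    rw [mem_subs] at hs
    by_cases h1 : s = []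
    · exact Or.inl h1
    by_cases h2 : l.length ≤ s.length
    · exact Or.inr (Or.inl h2)
    right; right
    push Not at h2
    have hsn : s.Nodup := hl.sublist hs
    obtain ⟨a0, ha0⟩ := List.exists_mem_of_ne_nil s h1
    obtain ⟨a, ha, b, hb, hbn, hab⟩ := h.2 (toF s) (by
        intro x hx
        obtain ⟨c, hc, rfl⟩ := mem_toF.1 hx
        exact emb_mem_toF.2 (hs.subset hc)) ⟨emb a0, emb_mem_toF.2 ha0⟩ (by
        intro heq
        have := congrArg Finset.card heq
        rw [card_toF hsn, card_toF hl] at this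
        omega)
    obtain ⟨a', ha', rfl⟩ := mem_toF.1 ha
    obtain ⟨b', hb', rfl⟩ := mem_toF.1 hb
    exact ⟨a', ha', b', hb', fun h => hbn (emb_mem_toF.2 h), (adj_emb _ _).1 hab⟩

theorem sublist_eq_filter {l L : List (ℕ × ℕ)} (h : l.Sublist L) (hL : L.Nodup) :
    L.filter (fun c => decide (c ∈ l)) = l := by
  induction h with
  | slnil => rfl
  | @cons l L a h ih =>
    rw [List.nodup_cons] at hL
    have ha : a ∉ l := fun h' => hL.1 (h.subset h')
    rw [List.filter_cons_of_neg (by simpa using ha)]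
    exact ih hL.2
  | @cons_cons l L a h ih =>
    rw [List.nodup_cons] at hL
    rw [List.filter_cons_of_pos (by simp)]
    congr 1
    rw [← ih hL.2]
    apply List.filter_congr
    intro x hx
    have hxa : x ≠ a := fun h' => hL.1 (h' ▸ hx)
    rw [ih hL.2]
    simp [hxa]

theorem toF_inj {l l' L : List (ℕ × ℕ)} (hL : L.Nodup) (h : l.Sublist L) (h' : l'.Sublist L)
    (heq : toF l = toF l') : l = l' := by
  rw [← sublist_eq_filter h hL, ← sublist_eq_filter h' hL]
  apply List.filter_congr
  intro x _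
  have : x ∈ l ↔ x ∈ l' := by rw [← emb_mem_toF, heq, emb_mem_toF]
  simp [this]

/-- The list whose length is `boxCount n`. -/
def good_list (n : ℕ) : List (List (ℕ × ℕ)) :=
  (subs (boxL n)).filter (fun l => l.length = n ∧ connL l)

theorem nodup_good_list (n : ℕ) : (good_list n).Nodup := by
  unfold good_list
  apply List.Nodup.filter
  rw [subs_eq, List.nodup_sublists']
  exact nodup_boxL n

theorem mem_good_list {n : ℕ} (hn : 1 ≤ n) {l : List (ℕ × ℕ)} :
    l ∈ good_list n ↔ l.Sublist (boxL n) ∧ (toF l).card = n ∧ Conn (toF l) := by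
  unfold good_list
  rw [List.mem_filter, mem_subs]
  constructor
  · rintro ⟨h1, h2⟩
    have hnd : l.Nodup := (nodup_boxL n).sublist h1
    simp only [decide_eq_true_eq] at h2
    have hne : l ≠ [] := by
      rintro rfl
      simp at h2
      omega
    exact ⟨h1, by rw [card_toF hnd, h2.1], (connL_iff hnd hne).1 h2.2⟩
  · rintro ⟨h1, h2, h3⟩
    have hnd : l.Nodup := (nodup_boxL n).sublist h1
    have hne : l ≠ [] := by
      rintro rfl
      rw [card_toF hnd] at h2
      simp at h2
      omega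
    refine ⟨h1, ?_⟩
    simp only [decide_eq_true_eq]
    rw [card_toF hnd] at h2
    exact ⟨h2, (connL_iff hnd hne).2 h3⟩

theorem fixedCount_le_boxCount {n : ℕ} (hn : 1 ≤ n) : fixedCount n ≤ boxCount n := by
  classical
  rw [fixedCount_eq]
  have h1 : boxCount n = (good_list n).toFinset.card := by
    rw [List.toFinset_card_of_nodup (nodup_good_list n)]
    rfl
  rw [h1]
  have key : ∀ s ∈ NB n, toF ((boxL n).filter (fun c => decide (emb c ∈ s))) = s := by
    intro s hs
    have hs' := mem_NB.1 hs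
    have hbox : s ⊆ boxF n := hs'.1 ▸ subset_boxF hs'.2.1 hs'.2.2
    ext c
    rw [mem_toF]
    constructor
    · rintro ⟨a, ha, rfl⟩
      rw [List.mem_filter] at ha
      simpa using ha.2
    · intro hc
      have hcb := mem_boxF.1 (hbox hc)
      refine ⟨(c.1.toNat, c.2.toNat), ?_, ?_⟩
      · rw [List.mem_filter, mem_boxL]
        have e : emb (c.1.toNat, c.2.toNat) = c := by
          unfold emb
          ext
          · simp; omega
          · simp; omega
        refine ⟨⟨?_, ?_⟩, ?_⟩
        · simp only; omega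
        · simp only; omega
        · rw [e]; simpa using hc
      · unfold emb
        ext
        · simp; omega
        · simp; omega
  apply Finset.card_le_card_of_injOn
    (fun s => (boxL n).filter (fun c => decide (emb c ∈ s)))
  · intro s hs
    rw [Finset.mem_coe] at hs
    rw [Finset.mem_coe, List.mem_toFinset, mem_good_list hn, key s hs]
    have hs' := mem_NB.1 hs
    exact ⟨List.filter_sublist, hs'.1, hs'.2.1⟩
  · intro s hs s' hs' heq
    simp only at heq
    rw [← key s hs, ← key s' hs', heq]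

theorem boxCount_le {n : ℕ} (hn : 1 ≤ n) : boxCount n ≤ n ^ 2 * fixedCount n := by
  classical
  rw [fixedCount_eq]
  have h1 : boxCount n = (good_list n).toFinset.card := by
    rw [List.toFinset_card_of_nodup (nodup_good_list n)]
    rfl
  rw [h1, ← card_boxF, ← Finset.card_product]
  have hex : ∀ l : List (ℕ × ℕ), ∃ (u : Cell) (s0 : Finset Cell), l ∈ good_list n →
      (u ∈ boxF n ∧ s0 ∈ NB n ∧ toF l = shift u s0) := by
    intro l
    by_cases hl : l ∈ good_list n
    · rw [mem_good_list hn] at hl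
      obtain ⟨hsub, hcard, hconn⟩ := hl
      obtain ⟨u, s0, h0, hs0, ⟨c1, hc1, hc1'⟩, ⟨c2, hc2, hc2'⟩⟩ := exists_normal hconn.1
      refine ⟨u, s0, fun _ => ⟨?_, ?_, hs0⟩⟩
      · have hb : ∀ c ∈ toF l, c ∈ boxF n := by
          intro c hc
          obtain ⟨a, ha, rfl⟩ := mem_toF.1 hc
          have := mem_boxL.1 (hsub.subset ha)
          rw [mem_boxF]
          unfold emb
          simp only
          omega
        have e1 := mem_boxF.1 (hb c1 hc1)
        have e2 := mem_boxF.1 (hb c2 hc2)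
        rw [mem_boxF]
        omega
      · rw [mem_NB]
        rw [hs0, card_shift] at hcard
        rw [hs0, conn_shift_iff] at hconn
        exact ⟨hcard, hconn, h0⟩
    · exact ⟨0, ∅, fun h => absurd h hl⟩
  choose u f hf using hex
  apply Finset.card_le_card_of_injOn (fun l => (u l, f l))
  · intro l hl
    rw [Finset.mem_coe, List.mem_toFinset] at hl
    obtain ⟨g1, g2, -⟩ := hf l hl
    rw [Finset.mem_coe, Finset.mem_product]
    exact ⟨g1, g2⟩
  · intro l hl l' hl' heq
    rw [Finset.mem_coe, List.mem_toFinset] at hl hl'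
    obtain ⟨-, -, g3⟩ := hf l hl
    obtain ⟨-, -, g3'⟩ := hf l' hl'
    simp only [Prod.mk.injEq] at heq
    rw [heq.1, heq.2, ← g3'] at g3
    exact toF_inj (nodup_boxL n) ((mem_good_list hn).1 hl).1 ((mem_good_list hn).1 hl').1 g3

theorem boxCount_le_two_pow (n : ℕ) : boxCount n ≤ 2 ^ (n ^ 2) := by
  unfold boxCount
  refine (List.length_filter_le _ _).trans ?_
  rw [subs_eq, List.length_sublists', length_boxL]

end Pool.Agent.K4H36.Kl
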