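import Mathlib
import Pool.Agent.K4H36.Kl.Basic

/-!
Every finite connected set of cells can be split into two connected parts of comparable sizes.
-/

set_option autoImplicit false

namespace Pool.Agent.K4H36.Kl

/-- The four neighbours of a cell. -/
def nbrs (c : Cell) : Finset Cell :=
  {(c.1 + 1, c.2), (c.1 - 1, c.2), (c.1, c.2 + 1), (c.1, c.2 - 1)}

theorem card_nbrs_le (c : Cell) : (nbrs c).card ≤ 4 := Finset.card_le_four

theorem mem_nbrs_of_adj {c d : Cell} (h : grid.Adj c d) : d ∈ nbrs c := by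
  have h' : |c.1 - d.1| + |c.2 - d.2| = 1 := h
  unfold nbrs
  simp only [Finset.mem_insert, Finset.mem_singleton, Prod.ext_iff]
  rcases abs_cases (c.1 - d.1) with ⟨h1, h2⟩ | ⟨h1, h2⟩ <;>
    rcases abs_cases (c.2 - d.2) with ⟨h3, h4⟩ | ⟨h3, h4⟩ <;> rw [h1, h3] at h' <;> omega

/-- Existence of components: a connected subset of `A` through `z` without edges leaving it in `A`. -/
theorem exists_comp (A : Finset Cell) (z : Cell) (hz : z ∈ A) :
    ∃ K ⊆ A, z ∈ K ∧ Conn K ∧ ∀ a ∈ A, a ∉ K → ∀ b ∈ K, ¬ grid.Adj a b := by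
  classical
  set F : Finset (Finset Cell) := A.powerset.filter (fun K => z ∈ K ∧ Conn K) with hF
  have hne : F.Nonempty := by
    refine ⟨{z}, ?_⟩
    rw [hF, Finset.mem_filter, Finset.mem_powerset]
    exact ⟨by simpa using hz, by simp, conn_singleton z⟩
  obtain ⟨K, hKF, hmax⟩ := Finset.exists_max_image F Finset.card hne
  rw [hF, Finset.mem_filter, Finset.mem_powerset] at hKF
  obtain ⟨hKA, hzK, hK⟩ := hKF
  refine ⟨K, hKA, hzK, hK, ?_⟩
  intro a haA haK b hbK hab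
  have h1 : Conn (K ∪ {a}) := hK.union_of_adj (conn_singleton a) hbK (by simp) hab.symm
  have h2 : K ∪ {a} ∈ F := by
    rw [hF, Finset.mem_filter, Finset.mem_powerset]
    refine ⟨?_, by simp [hzK], h1⟩
    apply Finset.union_subset hKA
    simpa using haA
  have h3 := hmax _ h2
  have h4 : (K ∪ {a}).card = K.card + 1 := by
    rw [Finset.union_comm, ← Finset.insert_eq, Finset.card_insert_of_notMem haK]
  omega

/-- Two closed connected subsets which meet are equal. -/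
theorem comp_subset {A K L : Finset Cell} (hLA : L ⊆ A) (hL : Conn L)
    (hKc : ∀ a ∈ A, a ∉ K → ∀ b ∈ K, ¬ grid.Adj a b)
    {z : Cell} (hzK : z ∈ K) (hzL : z ∈ L) : L ⊆ K := by
  classical
  by_contra hcon
  have h1 : (L ∩ K).Nonempty := ⟨z, Finset.mem_inter.2 ⟨hzL, hzK⟩⟩
  have h2 : L ∩ K ≠ L := by
    intro h
    apply hcon
    intro x hx
    rw [← h] at hx
    exact (Finset.mem_inter.1 hx).2
  obtain ⟨a, ha, b, hb, hbn, hab⟩ := hL.2 (L ∩ K) Finset.inter_subset_left h1 h2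
  have hbK : b ∉ K := fun h => hbn (Finset.mem_inter.2 ⟨hb, h⟩)
  exact hKc b (hLA hb) hbK a (Finset.mem_inter.1 ha).2 hab.symm

/-- Removing a component of `Q \ {c}` from `S` leaves a connected set. -/
theorem conn_sdiff_comp {S Q K : Finset Cell} {c : Cell} (hQS : Q ⊆ S) (hQ : Conn Q)
    (hR : S \ Q = ∅ ∨ (Conn (S \ Q) ∧ ∃ r ∈ S \ Q, grid.Adj c r))
    (hcQ : c ∈ Q) (hKQ : K ⊆ Q.erase c)
    (hKc : ∀ a ∈ Q.erase c, a ∉ K → ∀ b ∈ K, ¬ grid.Adj a b) : Conn (S \ K) := by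
  classical
  have hcK : c ∉ K := fun h => by simpa using hKQ h
  have hcS : c ∈ S \ K := Finset.mem_sdiff.2 ⟨hQS hcQ, hcK⟩
  -- key claim: a nonempty set X in S \ K avoiding c has an edge to the complement
  have key : ∀ X ⊆ S \ K, X.Nonempty → c ∉ X →
      ∃ a ∈ X, ∃ b ∈ S \ K, b ∉ X ∧ grid.Adj a b := by
    intro X hX hXne hcX
    by_cases hXQ : (X ∩ Q).Nonempty
    · have h2 : X ∩ Q ≠ Q := by
        intro h
        apply hcX
        rw [← h] at hcQ
        exact (Finset.mem_inter.1 hcQ).1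
      obtain ⟨a, ha, b, hb, hbn, hab⟩ := hQ.2 (X ∩ Q) Finset.inter_subset_right hXQ h2
      obtain ⟨haX, haQ⟩ := Finset.mem_inter.1 ha
      have haK : a ∉ K := (Finset.mem_sdiff.1 (hX haX)).2
      have hac : a ≠ c := fun h => hcX (h ▸ haX)
      have hbX : b ∉ X := fun h => hbn (Finset.mem_inter.2 ⟨h, hb⟩)
      have hbK : b ∉ K := fun h => hKc a (Finset.mem_erase.2 ⟨hac, haQ⟩) haK b h hab
      exact ⟨a, haX, b, Finset.mem_sdiff.2 ⟨hQS hb, hbK⟩, hbX, hab⟩
    · have hXR : X ⊆ S \ Q := by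
        intro x hx
        refine Finset.mem_sdiff.2 ⟨(Finset.mem_sdiff.1 (hX hx)).1, ?_⟩
        intro hxQ
        exact hXQ ⟨x, Finset.mem_inter.2 ⟨hx, hxQ⟩⟩
      rcases hR with hR | ⟨hR, r, hr, hcr⟩
      · exfalso
        obtain ⟨x, hx⟩ := hXne
        have := hXR hx
        rw [hR] at this
        simp at this
      · by_cases hXe : X = S \ Q
        · refine ⟨r, hXe ▸ hr, c, hcS, hcX, hcr.symm⟩
        · obtain ⟨a, ha, b, hb, hbn, hab⟩ := hR.2 X hXR hXne hXe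
          refine ⟨a, ha, b, ?_, hbn, hab⟩
          obtain ⟨hbS, hbQ⟩ := Finset.mem_sdiff.1 hb
          refine Finset.mem_sdiff.2 ⟨hbS, fun h => hbQ ?_⟩
          exact Finset.mem_of_mem_erase (hKQ h)
  refine ⟨⟨c, hcS⟩, ?_⟩
  intro t ht htne hne
  by_cases hct : c ∈ t
  · -- use the complement
    have h1 : ((S \ K) \ t).Nonempty := by
      rw [Finset.sdiff_nonempty]
      intro h
      exact hne (Finset.Subset.antisymm ht h)
    obtain ⟨a, ha, b, hb, hbn, hab⟩ := key ((S \ K) \ t) Finset.sdiff_subset h1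
      (fun h => (Finset.mem_sdiff.1 h).2 hct)
    obtain ⟨haS, hat⟩ := Finset.mem_sdiff.1 ha
    have hbt : b ∈ t := by
      by_contra h
      exact hbn (Finset.mem_sdiff.2 ⟨hb, h⟩)
    exact ⟨b, hbt, a, haS, hat, hab.symm⟩
  · exact key t ht htne hct

/-- Splitting lemma. -/
theorem exists_split {S : Finset Cell} (hS : Conn S) {k : ℕ} (hk1 : 1 ≤ k) (hk : k ≤ S.card) :
    ∃ Q ⊆ S, Conn Q ∧ (S \ Q = ∅ ∨ Conn (S \ Q)) ∧ k ≤ Q.card ∧ Q.card ≤ 4 * (k - 1) + 1 := by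
  classical
  set F : Finset (Finset Cell) := S.powerset.filter
    (fun Q => Conn Q ∧ (S \ Q = ∅ ∨ Conn (S \ Q)) ∧ k ≤ Q.card) with hF
  have hSF : S ∈ F := by
    rw [hF, Finset.mem_filter, Finset.mem_powerset]
    exact ⟨Finset.Subset.refl _, hS, Or.inl (by simp), hk⟩
  obtain ⟨Q, hQF, hmin⟩ := Finset.exists_min_image F Finset.card ⟨S, hSF⟩
  rw [hF, Finset.mem_filter, Finset.mem_powerset] at hQF
  obtain ⟨hQS, hQ, hR, hkQ⟩ := hQF
  refine ⟨Q, hQS, hQ, hR, hkQ, ?_⟩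
  by_contra hbig
  push Not at hbig
  -- choose c
  obtain ⟨c, hcQ, hcR⟩ : ∃ c ∈ Q, (S \ Q = ∅ ∨ (Conn (S \ Q) ∧ ∃ r ∈ S \ Q, grid.Adj c r)) := by
    rcases hR with hR | hR
    · obtain ⟨c, hc⟩ := hQ.1
      exact ⟨c, hc, Or.inl hR⟩
    · have h2 : Q ≠ S := by
        intro h
        rw [h] at hR
        have := hR.1
        simp at this
      obtain ⟨a, ha, b, hb, hbn, hab⟩ := hS.2 Q hQS hQ.1 h2
      exact ⟨a, ha, Or.inr ⟨hR, b, Finset.mem_sdiff.2 ⟨hb, hbn⟩, hab⟩⟩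
  -- the components
  have hcomp : ∀ z : Cell, ∃ K : Finset Cell, z ∈ Q.erase c → (K ⊆ Q.erase c ∧ z ∈ K ∧ Conn K ∧
      ∀ a ∈ Q.erase c, a ∉ K → ∀ b ∈ K, ¬ grid.Adj a b) := by
    intro z
    by_cases hz : z ∈ Q.erase c
    · obtain ⟨K, h1, h2, h3, h4⟩ := exists_comp (Q.erase c) z hz
      exact ⟨K, fun _ => ⟨h1, h2, h3, h4⟩⟩
    · exact ⟨∅, fun h => absurd h hz⟩
  choose K hK using hcomp
  -- each component has fewer than k cells
  have hsmall : ∀ z ∈ Q.erase c, (K z).card ≤ k - 1 := by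
    intro z hz
    obtain ⟨h1, h2, h3, h4⟩ := hK z hz
    by_contra hcon
    have hKF : K z ∈ F := by
      rw [hF, Finset.mem_filter, Finset.mem_powerset]
      refine ⟨(h1.trans (Finset.erase_subset _ _)).trans hQS, h3, Or.inr ?_, by omega⟩
      exact conn_sdiff_comp hQS hQ hcR hcQ h1 h4
    have h5 := hmin _ hKF
    have h6 := Finset.card_le_card h1
    rw [Finset.card_erase_of_mem hcQ] at h6
    have h7 : 0 < Q.card := Finset.card_pos.2 ⟨c, hcQ⟩
    omega
  -- covering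
  have hcover : Q.erase c ⊆ (nbrs c ∩ Q.erase c).biUnion K := by
    intro z hz
    obtain ⟨h1, h2, h3, h4⟩ := hK z hz
    have hne : K z ≠ Q := by
      intro h
      rw [← h] at hcQ
      simpa using h1 hcQ
    obtain ⟨a, ha, b, hb, hbn, hab⟩ := hQ.2 (K z) (h1.trans (Finset.erase_subset _ _)) h3.1 hne
    have hbc : b = c := by
      by_contra hbc
      exact h4 b (Finset.mem_erase.2 ⟨hbc, hb⟩) hbn a ha hab.symm
    subst hbc
    have haE : a ∈ Q.erase b := h1 ha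
    obtain ⟨g1, g2, g3, g4⟩ := hK a haE
    have hsub : K z ⊆ K a := comp_subset h1 h3 g4 g2 ha
    rw [Finset.mem_biUnion]
    exact ⟨a, Finset.mem_inter.2 ⟨mem_nbrs_of_adj hab.symm, haE⟩, hsub h2⟩
  have h1 := Finset.card_le_card hcover
  have h2 : ((nbrs c ∩ Q.erase c).biUnion K).card ≤ (nbrs c ∩ Q.erase c).card * (k - 1) := by
    apply Finset.card_biUnion_le_card_mul
    intro z hz
    exact hsmall z (Finset.mem_inter.1 hz).2
  have h3 : (nbrs c ∩ Q.erase c).card ≤ 4 :=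
    (Finset.card_le_card Finset.inter_subset_left).trans (card_nbrs_le c)
  have h4 : (nbrs c ∩ Q.erase c).card * (k - 1) ≤ 4 * (k - 1) := Nat.mul_le_mul_right _ h3
  rw [Finset.card_erase_of_mem hcQ] at h1
  omega

end Pool.Agent.K4H36.Kl
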