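import Mathlib
import Pool.Agent.K4H36.Kl.Norm

/-!
Concatenation: `t(m) t(n) ≤ t(m + n)`.
-/

set_option autoImplicit false

namespace Pool.Agent.K4H36.Kl

theorem shift_union (w : Cell) (s t : Finset Cell) [DecidableEq Cell] :
    shift w (s ∪ t) = shift w s ∪ shift w t := by
  ext c
  simp only [mem_shift, Finset.mem_union]

theorem initial_eq {A B A' B' : Finset Cell} [DecidableEq Cell] (h : A ∪ B = A' ∪ B')
    (hcard : A.card = A'.card) {X X' : ℤ} (hA : ∀ a ∈ A, a.1 ≤ X) (hB : ∀ b ∈ B, X < b.1)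
    (hA' : ∀ a ∈ A', a.1 ≤ X') (hB' : ∀ b ∈ B', X' < b.1) : A = A' := by
  by_contra hne
  have h1 : ¬ A ⊆ A' := fun h => hne (Finset.eq_of_subset_of_card_le h hcard.ge)
  have h2 : ¬ A' ⊆ A := fun h => hne (Finset.eq_of_subset_of_card_le h hcard.le).symm
  obtain ⟨a, ha, ha'⟩ := Finset.not_subset.1 h1
  obtain ⟨b, hb, hb'⟩ := Finset.not_subset.1 h2
  have ha2 : a ∈ B' := by
    have : a ∈ A' ∪ B' := h ▸ Finset.mem_union_left _ ha
    rcases Finset.mem_union.1 this with h | h
    · exact absurd h ha'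
    · exact h
  have hb2 : b ∈ B := by
    have : b ∈ A ∪ B := h ▸ Finset.mem_union_left _ hb
    rcases Finset.mem_union.1 this with h | h
    · exact absurd h hb'
    · exact h
  have e1 := hA a ha
  have e2 := hB b hb2
  have e3 := hA' b hb
  have e4 := hB' a ha2
  omega

theorem exists_glue (P Q : Finset Cell) (hP : Conn P) (hQ : Conn Q) :
    ∃ (v u : Cell) (X : ℤ) (s0 : Finset Cell), Normal s0 ∧ P ∪ shift v Q = shift u s0 ∧
      Conn s0 ∧ (∀ p ∈ P, p.1 ≤ X) ∧ (∀ q ∈ shift v Q, X < q.1) ∧
      s0.card = P.card + Q.card := by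
  classical
  obtain ⟨p, hp, hpmax⟩ := Finset.exists_max_image P (fun c => c.1) hP.1
  obtain ⟨q, hq, hqmin⟩ := Finset.exists_min_image Q (fun c => c.1) hQ.1
  set v : Cell := p + (1, 0) - q with hv
  have hpX : ∀ c ∈ P, c.1 ≤ p.1 := fun c hc => hpmax c hc
  have hqX : ∀ c ∈ shift v Q, p.1 < c.1 := by
    intro c hc
    rw [mem_shift] at hc
    have := hqmin _ hc
    simp [hv] at this
    omega
  have hadj : grid.Adj p (p + (1, 0)) := by
    show |p.1 - (p + (1, 0)).1| + |p.2 - (p + (1, 0)).2| = 1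
    simp
  have hU : Conn (P ∪ shift v Q) := by
    refine hP.union_of_adj (hQ.shift v) hp ?_ hadj
    rw [mem_shift]
    have : p + (1, 0) - v = q := by rw [hv]; abel
    rw [this]; exact hq
  have hdisj : Disjoint P (shift v Q) := by
    rw [Finset.disjoint_left]
    intro c hc hc'
    have := hpX c hc
    have := hqX c hc'
    omega
  obtain ⟨u, s0, h0, hs0, -, -⟩ := exists_normal hU.1
  refine ⟨v, u, p.1, s0, h0, hs0, ?_, hpX, hqX, ?_⟩
  · rw [hs0, conn_shift_iff] at hU
    exact hU
  · rw [← card_shift u s0, ← hs0, Finset.card_union_of_disjoint hdisj, card_shift]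

theorem fixedCount_super (m n : ℕ) : fixedCount m * fixedCount n ≤ fixedCount (m + n) := by
  classical
  rw [fixedCount_eq, fixedCount_eq, fixedCount_eq, ← Finset.card_product]
  have hg : ∀ z : Finset Cell × Finset Cell, ∃ (v u : Cell) (X : ℤ) (s0 : Finset Cell),
      Conn z.1 → Conn z.2 → (Normal s0 ∧ z.1 ∪ shift v z.2 = shift u s0 ∧
      Conn s0 ∧ (∀ p ∈ z.1, p.1 ≤ X) ∧ (∀ q ∈ shift v z.2, X < q.1) ∧
      s0.card = z.1.card + z.2.card) := by
    intro z
    by_cases h1 : Conn z.1
    · by_cases h2 : Conn z.2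
      · obtain ⟨v, u, X, s0, h⟩ := exists_glue z.1 z.2 h1 h2
        exact ⟨v, u, X, s0, fun _ _ => h⟩
      · exact ⟨0, 0, 0, ∅, fun _ h => absurd h h2⟩
    · exact ⟨0, 0, 0, ∅, fun h => absurd h h1⟩
  choose v u X f hf using hg
  apply Finset.card_le_card_of_injOn f
  · intro z hz
    rw [Finset.mem_coe, Finset.mem_product] at hz
    obtain ⟨h1, h2⟩ := hz
    rw [mem_NB] at h1 h2
    obtain ⟨g1, g2, g3, g4, g5, g6⟩ := hf z h1.2.1 h2.2.1
    rw [Finset.mem_coe, mem_NB]
    exact ⟨by rw [g6, h1.1, h2.1], g3, g1⟩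
  · intro z hz z' hz' hzz'
    rw [Finset.mem_coe, Finset.mem_product] at hz hz'
    obtain ⟨h1, h2⟩ := hz
    obtain ⟨h1', h2'⟩ := hz'
    rw [mem_NB] at h1 h2 h1' h2'
    obtain ⟨g1, g2, g3, g4, g5, g6⟩ := hf z h1.2.1 h2.2.1
    obtain ⟨g1', g2', g3', g4', g5', g6'⟩ := hf z' h1'.2.1 h2'.2.1
    set w : Cell := u z' - u z with hw
    have e1 : z'.1 ∪ shift (v z') z'.2 = shift w z.1 ∪ shift w (shift (v z) z.2) := by
      rw [← shift_union, g2, g2', ← hzz', shift_shift, hw]
      congr 1
      abel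
    have e2 : z'.1 = shift w z.1 := by
      apply initial_eq e1 (X := X z') (X' := X z + w.1)
      · rw [card_shift, h1.1, h1'.1]
      · exact g4'
      · exact g5'
      · intro a ha
        rw [mem_shift] at ha
        have := g4 _ ha
        simp at this
        omega
      · intro a ha
        rw [mem_shift] at ha
        have := g5 _ ha
        simp at this
        omega
    have e3 : w = 0 := by
      have := h1'.2.2
      rw [e2] at this
      exact normal_unique h1.2.2 this
    have e4 : z'.1 = z.1 := by rw [e2, e3, shift_zero]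
    rw [e3, shift_zero, shift_zero, e4] at e1
    have hd : Disjoint z.1 (shift (v z) z.2) := by
      rw [Finset.disjoint_left]
      intro c hc hc'
      have := g4 c hc
      have := g5 c hc'
      omega
    have hd' : Disjoint z.1 (shift (v z') z'.2) := by
      rw [Finset.disjoint_left]
      intro c hc hc'
      rw [← e4] at hc
      have := g4' c hc
      have := g5' c hc'
      omega
    have e5 : shift (v z') z'.2 = shift (v z) z.2 := by
      have a1 := Finset.union_sdiff_cancel_left hd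
      have a2 := Finset.union_sdiff_cancel_left hd'
      rw [← a1, ← a2, e1]
    have e6 : z'.2 = shift (v z - v z') z.2 := by
      have := congrArg (shift (-(v z'))) e5
      rw [shift_shift, shift_shift, add_neg_cancel, shift_zero, ← sub_eq_add_neg] at this
      exact this
    have e7 : v z - v z' = 0 := by
      have := h2'.2.2
      rw [e6] at this
      exact normal_unique h2.2.2 this
    rw [e7, shift_zero] at e6
    exact Prod.ext e4.symm e6.symm

theorem fixedCount_one : 1 ≤ fixedCount 1 := by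
  rw [fixedCount_eq, Nat.one_le_iff_ne_zero, Finset.card_ne_zero]
  refine ⟨{0}, ?_⟩
  rw [mem_NB]
  refine ⟨by simp, conn_singleton 0, ?_, ?_, ?_⟩
  · intro c hc
    rw [Finset.mem_singleton] at hc
    simp [hc]
  · exact ⟨0, by simp, rfl⟩
  · exact ⟨0, by simp, rfl⟩

theorem fixedCount_pos (n : ℕ) : 1 ≤ fixedCount (n + 1) := by
  induction n with
  | zero => exact fixedCount_one
  | succ n ih =>
    have := fixedCount_super (n + 1) 1
    have h1 := Nat.mul_le_mul ih fixedCount_one
    omega

end Pool.Agent.K4H36.Kl
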