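import Mathlib
import Pool.Agent.K4H36.Kl.Split
import Pool.Agent.K4H36.Kl.Super

/-!
The splitting inequality for the number of fixed polyominoes and the window certificate.
-/

set_option autoImplicit false

namespace Pool.Agent.K4H36.Kl

/-- Admissible sizes of the first part. -/
def sizes (N : ℕ) : Finset ℕ := (Finset.range N).filter (fun a => N ≤ 5 * a ∧ N ≤ 5 * (N - a) + 1)

theorem fixedCount_split (N : ℕ) (hN : 2 ≤ N) :
    fixedCount N ≤ N ^ 4 * ∑ a ∈ sizes N, fixedCount a * fixedCount (N - a) := by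
  classical
  have hsub : NB N ⊆ (sizes N).biUnion (fun a =>
      (NB a ×ˢ NB (N - a) ×ˢ boxF N ×ˢ boxF N).image
        (fun z => shift z.2.2.1 z.1 ∪ shift z.2.2.2 z.2.1)) := by
    intro S hS
    rw [mem_NB] at hS
    obtain ⟨hcard, hconn, hnorm⟩ := hS
    have hbox : S ⊆ boxF N := hcard ▸ subset_boxF hconn hnorm
    obtain ⟨Q, hQS, hQ, hR, hk1, hk2⟩ := exists_split hconn (k := (N + 4) / 5) (by omega) (by omega)
    have hcardR : (S \ Q).card = N - Q.card := by
      rw [Finset.card_sdiff_of_subset hQS, hcard]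
    have hQN : Q.card < N := by omega
    have hR' : Conn (S \ Q) := by
      rcases hR with h | h
      · exfalso
        rw [h] at hcardR
        simp at hcardR
        omega
      · exact h
    obtain ⟨u, Q0, hQ0, hQu, ⟨c1, hc1, hc1'⟩, ⟨c2, hc2, hc2'⟩⟩ := exists_normal hQ.1
    obtain ⟨w, R0, hR0, hRw, ⟨d1, hd1, hd1'⟩, ⟨d2, hd2, hd2'⟩⟩ := exists_normal hR'.1
    have hu : u ∈ boxF N := by
      have e1 := mem_boxF.1 (hbox (hQS hc1))
      have e2 := mem_boxF.1 (hbox (hQS hc2))
      rw [mem_boxF]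
      omega
    have hw : w ∈ boxF N := by
      have e1 := mem_boxF.1 (hbox (Finset.mem_sdiff.1 hd1).1)
      have e2 := mem_boxF.1 (hbox (Finset.mem_sdiff.1 hd2).1)
      rw [mem_boxF]
      omega
    rw [Finset.mem_biUnion]
    refine ⟨Q.card, ?_, ?_⟩
    · unfold sizes
      rw [Finset.mem_filter, Finset.mem_range]
      omega
    · rw [Finset.mem_image]
      refine ⟨(Q0, R0, u, w), ?_, ?_⟩
      · simp only [Finset.mem_product]
        refine ⟨?_, ?_, hu, hw⟩
        · rw [mem_NB]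
          rw [hQu, conn_shift_iff] at hQ
          refine ⟨?_, hQ, hQ0⟩
          conv_rhs => rw [hQu]
          rw [card_shift]
        · rw [mem_NB]
          rw [hRw, conn_shift_iff] at hR'
          refine ⟨?_, hR', hR0⟩
          rw [← hcardR, hRw, card_shift]
      · simp only
        rw [← hQu, ← hRw]
        exact Finset.union_sdiff_of_subset hQS
  rw [fixedCount_eq]
  refine (Finset.card_le_card hsub).trans ?_
  refine Finset.card_biUnion_le.trans ?_
  rw [Finset.mul_sum]
  apply Finset.sum_le_sum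
  intro a ha
  refine Finset.card_image_le.trans ?_
  rw [Finset.card_product, Finset.card_product, Finset.card_product, card_boxF, fixedCount_eq,
    fixedCount_eq]
  apply le_of_eq
  ring

/-- The window certificate. -/
theorem window (B : ℝ) (hB : 0 < B) (j : ℕ) (hj : 1 ≤ j)
    (h : ∀ m, j ≤ m → m ≤ 5 * j → (50 : ℝ) ^ 5 * (m : ℝ) ^ 5 * (fixedCount m : ℝ) ≤ B ^ m) :
    ∀ N, j ≤ N → (50 : ℝ) ^ 5 * (N : ℝ) ^ 5 * (fixedCount N : ℝ) ≤ B ^ N := by
  intro N
  induction N using Nat.strong_induction_on with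
  | _ N ih =>
    intro hjN
    by_cases hN5 : N ≤ 5 * j
    · exact h N hjN hN5
    push Not at hN5
    have hN2 : 2 ≤ N := by omega
    have hNpos : (0 : ℝ) < N := by positivity
    have hterm : ∀ a ∈ sizes N, (50 : ℝ) ^ 5 * (N : ℝ) ^ 10 *
        ((fixedCount a : ℝ) * (fixedCount (N - a) : ℝ)) ≤ B ^ N := by
      intro a ha
      unfold sizes at ha
      rw [Finset.mem_filter, Finset.mem_range] at ha
      obtain ⟨haN, ha1, ha2⟩ := ha
      obtain ⟨b, hb⟩ : ∃ b, N = a + b := ⟨N - a, by omega⟩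
      have hNa : N - a = b := by omega
      rw [hNa] at ha2 ⊢
      have i1 := ih a haN (by omega)
      have i2 := ih b (by omega) (by omega)
      have hab : (N : ℝ) ^ 2 ≤ 50 * ((a : ℝ) * b) := by
        have e1 : (N : ℝ) ≤ 5 * a := by exact_mod_cast ha1
        have e2 : (N : ℝ) ≤ 10 * b := by
          have : N ≤ 10 * b := by omega
          exact_mod_cast this
        nlinarith
      have hab5 : (N : ℝ) ^ 10 ≤ 50 ^ 5 * ((a : ℝ) * b) ^ 5 := by
        have := pow_le_pow_left₀ (by positivity) hab 5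
        calc (N : ℝ) ^ 10 = ((N : ℝ) ^ 2) ^ 5 := by ring
          _ ≤ (50 * ((a : ℝ) * b)) ^ 5 := this
          _ = 50 ^ 5 * ((a : ℝ) * b) ^ 5 := by ring
      have h3 := mul_le_mul i1 i2 (by positivity) (by positivity)
      have hta : (0 : ℝ) ≤ (fixedCount a : ℝ) * (fixedCount b : ℝ) := by positivity
      calc (50 : ℝ) ^ 5 * (N : ℝ) ^ 10 * ((fixedCount a : ℝ) * (fixedCount b : ℝ))
          ≤ (50 : ℝ) ^ 5 * (50 ^ 5 * ((a : ℝ) * b) ^ 5) *
            ((fixedCount a : ℝ) * (fixedCount b : ℝ)) := by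
            apply mul_le_mul_of_nonneg_right _ hta
            apply mul_le_mul_of_nonneg_left hab5 (by positivity)
        _ = (50 : ℝ) ^ 5 * (a : ℝ) ^ 5 * (fixedCount a : ℝ) *
            ((50 : ℝ) ^ 5 * (b : ℝ) ^ 5 * (fixedCount b : ℝ)) := by ring
        _ ≤ B ^ a * B ^ b := h3
        _ = B ^ N := by rw [hb, pow_add]
    have hsplit : (fixedCount N : ℝ) ≤ (N : ℝ) ^ 4 *
        ∑ a ∈ sizes N, (fixedCount a : ℝ) * (fixedCount (N - a) : ℝ) := by
      have := fixedCount_split N hN2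
      exact_mod_cast this
    have hsum : ∑ a ∈ sizes N, (50 : ℝ) ^ 5 * (N : ℝ) ^ 10 *
        ((fixedCount a : ℝ) * (fixedCount (N - a) : ℝ)) ≤ N * B ^ N := by
      calc _ ≤ ∑ _a ∈ sizes N, B ^ N := Finset.sum_le_sum hterm
        _ = ((sizes N).card : ℝ) * B ^ N := by rw [Finset.sum_const, nsmul_eq_mul]
        _ ≤ N * B ^ N := by
          apply mul_le_mul_of_nonneg_right _ (by positivity)
          have : (sizes N).card ≤ N := by
            calc _ ≤ (Finset.range N).card := Finset.card_filter_le _ _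
              _ = N := Finset.card_range N
          exact_mod_cast this
    rw [← Finset.mul_sum] at hsum
    set W := ∑ a ∈ sizes N, (fixedCount a : ℝ) * (fixedCount (N - a) : ℝ) with hS
    have h4 : (N : ℝ) * ((50 : ℝ) ^ 5 * (N : ℝ) ^ 5 * (fixedCount N : ℝ)) ≤ N * B ^ N := by
      calc (N : ℝ) * ((50 : ℝ) ^ 5 * (N : ℝ) ^ 5 * (fixedCount N : ℝ))
          ≤ (N : ℝ) * ((50 : ℝ) ^ 5 * (N : ℝ) ^ 5 * ((N : ℝ) ^ 4 * W)) := by
            gcongr
        _ = (50 : ℝ) ^ 5 * (N : ℝ) ^ 10 * W := by ring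
        _ ≤ N * B ^ N := hsum
    exact le_of_mul_le_mul_left h4 hNpos

end Pool.Agent.K4H36.Kl
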