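import Mathlib
import Pool.Agent.K4H36.Kl.Ineq

/-!
Klarner's constant exists.
-/

set_option autoImplicit false

open Filter Topology

namespace Pool.Agent.K4H36.Kl

theorem exists_expbound : ∃ B : ℝ, 1 ≤ B ∧ ∀ N, 1 ≤ N → (fixedCount N : ℝ) ≤ B ^ N := by
  set B : ℝ := 1 + ∑ m ∈ Finset.range 6, (50 : ℝ) ^ 5 * (m : ℝ) ^ 5 * (fixedCount m : ℝ) with hB
  have hsum : 0 ≤ ∑ m ∈ Finset.range 6, (50 : ℝ) ^ 5 * (m : ℝ) ^ 5 * (fixedCount m : ℝ) :=
    Finset.sum_nonneg (fun m _ => by positivity)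
  have hB1 : 1 ≤ B := by linarith
  refine ⟨B, hB1, ?_⟩
  have hw := window B (by linarith) 1 le_rfl (by
    intro m h1 h2
    have h3 : (50 : ℝ) ^ 5 * (m : ℝ) ^ 5 * (fixedCount m : ℝ) ≤
        ∑ m ∈ Finset.range 6, (50 : ℝ) ^ 5 * (m : ℝ) ^ 5 * (fixedCount m : ℝ) :=
      Finset.single_le_sum (f := fun m : ℕ => (50 : ℝ) ^ 5 * (m : ℝ) ^ 5 * (fixedCount m : ℝ))
        (fun m _ => by positivity) (Finset.mem_range.2 (by omega))
    calc (50 : ℝ) ^ 5 * (m : ℝ) ^ 5 * (fixedCount m : ℝ) ≤ B := by linarith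
      _ = B ^ 1 := (pow_one B).symm
      _ ≤ B ^ m := pow_le_pow_right₀ hB1 h1)
  intro N hN
  have h := hw N hN
  have hN1 : (1 : ℝ) ≤ N := by exact_mod_cast hN
  have h5 : (1 : ℝ) ≤ (50 : ℝ) ^ 5 * (N : ℝ) ^ 5 := by
    have : (1 : ℝ) ≤ (N : ℝ) ^ 5 := one_le_pow₀ hN1
    nlinarith
  have h6 : (fixedCount N : ℝ) ≤ (50 : ℝ) ^ 5 * (N : ℝ) ^ 5 * (fixedCount N : ℝ) :=
    le_mul_of_one_le_left (by positivity) h5
  linarith

theorem fixedCount_zero : fixedCount 0 = 0 := by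
  rw [fixedCount_eq, Finset.card_eq_zero]
  ext s
  rw [mem_NB]
  constructor
  · rintro ⟨h1, h2, -⟩
    rw [Finset.card_eq_zero] at h1
    have := h2.1
    rw [h1] at this
    simp at this
  · intro h; simp at h

theorem exists_lambda : ∃ lam : ℝ, 0 < lam ∧
    Tendsto (fun n : ℕ => (fixedCount n : ℝ) ^ (1 / (n : ℝ))) atTop (𝓝 lam) ∧
    ∀ n : ℕ, 1 ≤ n → (fixedCount n : ℝ) ≤ lam ^ n := by
  obtain ⟨B, hB1, hB⟩ := exists_expbound
  have hpos : ∀ n : ℕ, 1 ≤ n → (0 : ℝ) < fixedCount n := by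
    intro n hn
    obtain ⟨m, rfl⟩ : ∃ m, n = m + 1 := ⟨n - 1, by omega⟩
    exact_mod_cast fixedCount_pos m
  have hsub : Subadditive (fun n : ℕ => - Real.log (fixedCount n)) := by
    intro m n
    simp only
    rcases Nat.eq_zero_or_pos m with rfl | hm
    · simp [fixedCount_zero]
    rcases Nat.eq_zero_or_pos n with rfl | hn
    · simp [fixedCount_zero]
    have h1 := hpos m hm
    have h2 := hpos n hn
    have h3 : (fixedCount m : ℝ) * fixedCount n ≤ fixedCount (m + n) := by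
      exact_mod_cast fixedCount_super m n
    have h4 := Real.log_le_log (by positivity) h3
    rw [Real.log_mul h1.ne' h2.ne'] at h4
    linarith
  have hbdd : BddBelow (Set.range fun n : ℕ => (- Real.log (fixedCount n)) / n) := by
    refine ⟨- Real.log B, ?_⟩
    rintro x ⟨n, rfl⟩
    simp only
    rcases Nat.eq_zero_or_pos n with rfl | hn
    · simp [fixedCount_zero]
      exact Real.log_nonneg hB1
    have hn' : (0 : ℝ) < n := by exact_mod_cast hn
    rw [le_div_iff₀ hn']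
    have h4 := Real.log_le_log (hpos n hn) (hB n hn)
    rw [Real.log_pow] at h4
    linarith
  have hlim := hsub.tendsto_lim hbdd
  refine ⟨Real.exp (- hsub.lim), Real.exp_pos _, ?_, ?_⟩
  · have h1 : Tendsto (fun n : ℕ => Real.exp (- ((- Real.log (fixedCount n)) / n))) atTop
        (𝓝 (Real.exp (- hsub.lim))) :=
      (Real.continuous_exp.tendsto _).comp hlim.neg
    refine h1.congr' ?_
    filter_upwards [eventually_ge_atTop 1] with n hn
    rw [Real.rpow_def_of_pos (hpos n hn)]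
    congr 1
    ring
  · intro n hn
    have hn0 : n ≠ 0 := by omega
    have hn' : (0 : ℝ) < n := by exact_mod_cast hn
    have h1 := hsub.lim_le_div hbdd hn0
    rw [le_div_iff₀ hn'] at h1
    rw [← Real.exp_nat_mul]
    rw [← Real.exp_log (hpos n hn)]
    apply Real.exp_le_exp.2
    linarith

end Pool.Agent.K4H36.Kl
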