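import Mathlib
import Pool.Agent.K4H36.Kl.Limit
import Pool.Agent.K4H36.Kl.Count

/-!
The upper approximations converge to Klarner's constant.
-/

set_option autoImplicit false

open Filter Topology

namespace Pool.Agent.K4H36.Kl

theorem boxCount_pos {m : ℕ} (hm : 1 ≤ m) : 1 ≤ boxCount m := by
  obtain ⟨k, rfl⟩ : ∃ k, m = k + 1 := ⟨m - 1, by omega⟩
  exact (fixedCount_pos k).trans (fixedCount_le_boxCount hm)

theorem cert_mono {j p p' q : ℕ} (h : cert j p q) (hp : p ≤ p') : cert j p' q := by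
  intro m hm
  rcases h m hm with h | h
  · exact Or.inl h
  · exact Or.inr (h.trans (Nat.pow_le_pow_left hp m))

theorem cert_double {j p q : ℕ} (h : cert j p q) : cert j (2 * p) (2 * q) := by
  intro m hm
  rcases h m hm with h | h
  · exact Or.inl h
  · right
    rw [mul_pow, mul_pow]
    calc 50 ^ 5 * m ^ 5 * boxCount m * (2 ^ m * q ^ m)
        = 2 ^ m * (50 ^ 5 * m ^ 5 * boxCount m * q ^ m) := by ring
      _ ≤ 2 ^ m * p ^ m := Nat.mul_le_mul_left _ h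

theorem not_cert_zero {j q : ℕ} (hj : 1 ≤ j) (hq : 1 ≤ q) : ¬ cert j 0 q := by
  intro h
  rcases h j (by omega) with h | h
  · omega
  · rw [zero_pow (by omega)] at h
    have h1 := boxCount_pos hj
    have h2 : 0 < 50 ^ 5 * j ^ 5 * boxCount j * q ^ j := by positivity
    omega

theorem cert_one (n : ℕ) : cert 1 (2 ^ n * (50 ^ 5 * 5 ^ 5 * 2 ^ 25)) (2 ^ n) := by
  intro m hm
  by_cases hm1 : m < 1
  · exact Or.inl hm1
  right
  have hm5 : m ≤ 5 := by omega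
  have hm1' : 1 ≤ m := by omega
  rw [mul_pow, mul_comm]
  apply Nat.mul_le_mul_left
  have h1 : boxCount m ≤ 2 ^ 25 := by
    refine (boxCount_le_two_pow m).trans ?_
    apply Nat.pow_le_pow_right (by norm_num)
    nlinarith
  have h2 : m ^ 5 ≤ 5 ^ 5 := Nat.pow_le_pow_left hm5 5
  calc 50 ^ 5 * m ^ 5 * boxCount m ≤ 50 ^ 5 * 5 ^ 5 * 2 ^ 25 :=
        Nat.mul_le_mul (Nat.mul_le_mul_left _ h2) h1
    _ = (50 ^ 5 * 5 ^ 5 * 2 ^ 25) ^ 1 := (pow_one _).symm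
    _ ≤ (50 ^ 5 * 5 ^ 5 * 2 ^ 25) ^ m := Nat.pow_le_pow_right (by norm_num) hm1'

theorem good_mono {n p p' : ℕ} (h : good n p) (hp : p ≤ p') : good n p' := by
  obtain ⟨j, hj, h⟩ := h
  exact ⟨j, hj, cert_mono h hp⟩

theorem good_double {n p : ℕ} (h : good n p) : good (n + 1) (2 * p) := by
  obtain ⟨j, hj, h⟩ := h
  refine ⟨j, by omega, ?_⟩
  rw [pow_succ, mul_comm (2 ^ n) 2]
  exact cert_double h

theorem not_good_zero (n : ℕ) : ¬ good n 0 := by
  rintro ⟨j, -, h⟩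
  exact not_cert_zero (by omega) (Nat.one_le_two_pow) h

/-- The greatest numerator failing the tests. -/
def bad (n : ℕ) : ℕ := Nat.findGreatest (fun p => ¬ good n p) (2 ^ n * (50 ^ 5 * 5 ^ 5 * 2 ^ 25))

theorem numer_eq (n : ℕ) : numer n = bad n + 2 := rfl

theorem not_good_bad (n : ℕ) : ¬ good n (bad n) :=
  Nat.findGreatest_spec (P := fun p => ¬ good n p) (Nat.zero_le _) (not_good_zero n)

theorem good_bad_succ (n : ℕ) : good n (bad n + 1) := by
  have h1 : bad n < 2 ^ n * (50 ^ 5 * 5 ^ 5 * 2 ^ 25) := by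
    by_contra hcon
    push Not at hcon
    have hle : bad n ≤ 2 ^ n * (50 ^ 5 * 5 ^ 5 * 2 ^ 25) := Nat.findGreatest_le _
    have h2 := not_good_bad n
    rw [le_antisymm hle hcon] at h2
    exact h2 ⟨0, by omega, cert_one n⟩
  by_contra hcon
  have := Nat.findGreatest_is_greatest (P := fun p => ¬ good n p) (k := bad n + 1)
    (Nat.lt_succ_self _) h1
  exact this hcon

theorem bad_lt {n p : ℕ} (h : good n p) : bad n + 1 ≤ p := by
  by_contra hcon
  exact not_good_bad n (good_mono h (by omega))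

/-- Soundness of the test. -/
theorem lambda_le_of_good {lam : ℝ}
    (hlam : Tendsto (fun n : ℕ => (fixedCount n : ℝ) ^ (1 / (n : ℝ))) atTop (𝓝 lam))
    {n p : ℕ} (h : good n p) : lam ≤ (p : ℝ) / 2 ^ n := by
  obtain ⟨j, -, h⟩ := h
  have hp : 0 < p := by
    rcases Nat.eq_zero_or_pos p with rfl | hp
    · exact absurd h (not_cert_zero (by omega) (Nat.one_le_two_pow))
    · exact hp
  set B : ℝ := (p : ℝ) / 2 ^ n with hB
  have hBpos : 0 < B := by positivity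
  have hw := window B hBpos (j + 1) (by omega) (by
    intro m h1 h2
    rcases h m (by omega) with h | h
    · omega
    · have h3 : (50 : ℝ) ^ 5 * (m : ℝ) ^ 5 * (boxCount m : ℝ) * (2 ^ n) ^ m ≤ (p : ℝ) ^ m := by
        exact_mod_cast h
      have h4 : (fixedCount m : ℝ) ≤ boxCount m := by
        exact_mod_cast fixedCount_le_boxCount (by omega : 1 ≤ m)
      rw [hB, div_pow, le_div_iff₀ (by positivity)]
      refine le_trans ?_ h3
      gcongr)
  refine le_of_tendsto hlam ?_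
  filter_upwards [eventually_ge_atTop (j + 1)] with N hN
  have hN1 : 1 ≤ N := by omega
  have h1 := hw N hN
  have h2 : (fixedCount N : ℝ) ≤ B ^ N := by
    have hN1' : (1 : ℝ) ≤ N := by exact_mod_cast hN1
    have h5 : (1 : ℝ) ≤ (50 : ℝ) ^ 5 * (N : ℝ) ^ 5 := by
      have : (1 : ℝ) ≤ (N : ℝ) ^ 5 := one_le_pow₀ hN1'
      nlinarith
    have h6 : (fixedCount N : ℝ) ≤ (50 : ℝ) ^ 5 * (N : ℝ) ^ 5 * (fixedCount N : ℝ) :=
      le_mul_of_one_le_left (by positivity) h5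
    linarith
  have hN0 : (N : ℝ) ≠ 0 := by positivity
  calc (fixedCount N : ℝ) ^ (1 / (N : ℝ)) ≤ (B ^ N) ^ (1 / (N : ℝ)) :=
        Real.rpow_le_rpow (by positivity) h2 (by positivity)
    _ = B := by
        rw [← Real.rpow_natCast, ← Real.rpow_mul hBpos.le, mul_one_div_cancel hN0, Real.rpow_one]

/-- Completeness of the test. -/
theorem eventually_good {lam γ : ℝ} (h0 : 0 < lam)
    (hle : ∀ n : ℕ, 1 ≤ n → (fixedCount n : ℝ) ≤ lam ^ n) (hγ : lam < γ) :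
    ∀ᶠ n : ℕ in atTop, good n ⌈γ * 2 ^ n⌉₊ := by
  have hγ0 : 0 < γ := h0.trans hγ
  have hr : |lam / γ| < 1 := by
    rw [abs_of_pos (by positivity), div_lt_one hγ0]
    exact hγ
  have h1 := (tendsto_pow_const_mul_const_pow_of_abs_lt_one 7 hr).const_mul ((50 : ℝ) ^ 5)
  rw [mul_zero] at h1
  have h2 : ∀ᶠ m : ℕ in atTop, (50 : ℝ) ^ 5 * ((m : ℝ) ^ 7 * (lam / γ) ^ m) < 1 :=
    h1.eventually_lt_const one_pos
  rw [eventually_atTop] at h2 ⊢
  obtain ⟨J, hJ⟩ := h2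
  refine ⟨J, fun n hn => ⟨n, by omega, ?_⟩⟩
  intro m hm
  by_cases hmn : m < n + 1
  · exact Or.inl hmn
  right
  have hm1 : 1 ≤ m := by omega
  have h3 := hJ m (by omega)
  have h4 : (50 : ℝ) ^ 5 * (m : ℝ) ^ 7 * lam ^ m ≤ γ ^ m := by
    rw [div_pow] at h3
    have hγm : 0 < γ ^ m := by positivity
    have : (50 : ℝ) ^ 5 * (m : ℝ) ^ 7 * lam ^ m =
        (50 : ℝ) ^ 5 * ((m : ℝ) ^ 7 * (lam ^ m / γ ^ m)) * γ ^ m := by
      field_simp
    rw [this]
    have := mul_le_mul_of_nonneg_right h3.le hγm.le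
    linarith
  have h5 : (boxCount m : ℝ) ≤ (m : ℝ) ^ 2 * lam ^ m := by
    have := boxCount_le hm1
    have h6 : (boxCount m : ℝ) ≤ (m : ℝ) ^ 2 * (fixedCount m : ℝ) := by exact_mod_cast this
    refine h6.trans ?_
    exact mul_le_mul_of_nonneg_left (hle m hm1) (by positivity)
  have h6 : γ * 2 ^ n ≤ (⌈γ * 2 ^ n⌉₊ : ℝ) := Nat.le_ceil _
  have h7 : (50 : ℝ) ^ 5 * (m : ℝ) ^ 5 * (boxCount m : ℝ) * (2 ^ n) ^ m ≤
      (⌈γ * 2 ^ n⌉₊ : ℝ) ^ m := by
    calc (50 : ℝ) ^ 5 * (m : ℝ) ^ 5 * (boxCount m : ℝ) * (2 ^ n) ^ m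
        ≤ (50 : ℝ) ^ 5 * (m : ℝ) ^ 5 * ((m : ℝ) ^ 2 * lam ^ m) * (2 ^ n) ^ m := by gcongr
      _ = ((50 : ℝ) ^ 5 * (m : ℝ) ^ 7 * lam ^ m) * (2 ^ n) ^ m := by ring
      _ ≤ γ ^ m * (2 ^ n) ^ m := by gcongr
      _ = (γ * 2 ^ n) ^ m := (mul_pow _ _ _).symm
      _ ≤ (⌈γ * 2 ^ n⌉₊ : ℝ) ^ m := pow_le_pow_left₀ (by positivity) h6 m
  exact_mod_cast h7

theorem main : ∃ lam : ℝ,
    Tendsto (fun n : ℕ => (fixedCount n : ℝ) ^ (1 / (n : ℝ))) atTop (𝓝 lam) ∧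
    Primrec numer ∧ (∀ n, (numer (n + 1) : ℝ) / 2 ^ (n + 1) < (numer n : ℝ) / 2 ^ n) ∧
    Tendsto (fun n : ℕ => (numer n : ℝ) / 2 ^ n) atTop (𝓝 lam) := by
  obtain ⟨lam, h0, hlam, hle⟩ := exists_lambda
  refine ⟨lam, hlam, primrec_numer, ?_, ?_⟩
  · intro n
    have h1 : bad (n + 1) + 1 ≤ 2 * (bad n + 1) := bad_lt (good_double (good_bad_succ n))
    rw [numer_eq, numer_eq, pow_succ, div_lt_div_iff₀ (by positivity) (by positivity)]
    have h2 : ((bad (n + 1) + 2 : ℕ) : ℝ) < 2 * ((bad n + 2 : ℕ) : ℝ) := by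
      have : bad (n + 1) + 2 < 2 * (bad n + 2) := by omega
      exact_mod_cast this
    have h3 : (0 : ℝ) < 2 ^ n := by positivity
    nlinarith
  · rw [Metric.tendsto_atTop]
    intro ε hε
    have h1 := eventually_good (γ := lam + ε / 2) h0 hle (by linarith)
    have h2 : Tendsto (fun n : ℕ => (2 : ℝ) * (1 / 2) ^ n) atTop (𝓝 (2 * 0)) :=
      (tendsto_pow_atTop_nhds_zero_of_lt_one (by norm_num) (by norm_num)).const_mul 2
    rw [mul_zero] at h2
    have h3 : ∀ᶠ n : ℕ in atTop, (2 : ℝ) * (1 / 2) ^ n < ε / 2 :=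
      h2.eventually_lt_const (by linarith)
    have h4 := h1.and h3
    rw [eventually_atTop] at h4
    obtain ⟨N, hN⟩ := h4
    refine ⟨N, fun n hn => ?_⟩
    obtain ⟨h5, h6⟩ := hN n hn
    have h7 := bad_lt h5
    have h2n : (0 : ℝ) < 2 ^ n := by positivity
    have hlow : lam ≤ (numer n : ℝ) / 2 ^ n := by
      refine (lambda_le_of_good hlam (good_bad_succ n)).trans ?_
      rw [numer_eq]
      gcongr
      omega
    have hup : (numer n : ℝ) / 2 ^ n < lam + ε := by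
      have h8 : (⌈(lam + ε / 2) * 2 ^ n⌉₊ : ℝ) < (lam + ε / 2) * 2 ^ n + 1 :=
        Nat.ceil_lt_add_one (by positivity)
      have h9 : (numer n : ℝ) ≤ (⌈(lam + ε / 2) * 2 ^ n⌉₊ : ℝ) + 1 := by
        rw [numer_eq]
        have : bad n + 2 ≤ ⌈(lam + ε / 2) * 2 ^ n⌉₊ + 1 := by omega
        exact_mod_cast this
      rw [div_lt_iff₀ h2n]
      have h10 : (2 : ℝ) * (1 / 2) ^ n * 2 ^ n = 2 := by
        rw [mul_assoc, ← mul_pow]; norm_num
      have h11 : (2 : ℝ) < ε / 2 * 2 ^ n := by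
        calc (2 : ℝ) = (2 : ℝ) * (1 / 2) ^ n * 2 ^ n := h10.symm
          _ < ε / 2 * 2 ^ n := by gcongr
      nlinarith
    rw [Real.dist_eq, abs_lt]
    constructor <;> linarith

end Pool.Agent.K4H36.Kl
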